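import Pool.Agent.helper84.NR.SpecW

set_option autoImplicit false

namespace Pool.Agent.helper84.NR

open scoped Classical
open Finset

theorem GCNW : GCNW_stmt := by
  intro V F _ _ M x y J hT
  rw [gaps, Finset.card_sigma, Nat.cast_sum]
  refine Finset.sum_congr rfl (fun B hB => ?_)
  exact GCN_one h_IDX h_EDG h_WW0 M x y B hT.ne (hT.jy B hB) (hT.jn B hB)

end Pool.Agent.helper84.NR
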